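import Mathlib

open Polynomial NumberField IsDedekindDomain

namespace Pool.Agent.Results.MP_a70ae2_nt.Q1

/-- `C : y ^ 2 = f x` -/
noncomputable def f : ℚ[X] := 2 * X ^ 6 + X ^ 2 + 2

/-- `D : y ^ 2 = g x` -/
noncomputable def g : ℚ[X] := 3 * ((X ^ 3 - X) ^ 2 - 1)

/-- the smooth projective model of `y ^ 2 = p x`, `p` of degree 6, has a point over `K`: the
model is `y ^ 2 = z ^ 6 p (x / z)` in the weighted projective plane with weights `1, 3, 1` -/
def HasPoint (p : ℚ[X]) (K : Type) [Field K] [Algebra ℚ K] : Prop :=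
  ∃ x y z : K, (x ≠ 0 ∨ z ≠ 0) ∧
    y ^ 2 = ∑ i ∈ Finset.range 7, algebraMap ℚ K (p.coeff i) * x ^ i * z ^ (6 - i)

section
variable {K : Type} [Field K] (v : Valuation K (WithZero (Multiplicative ℤ)))

lemma res_zero (r : v.valuationSubring) :
    IsLocalRing.residue v.valuationSubring r = 0 ↔ v r < 1 := by
  rw [IsLocalRing.residue_eq_zero_iff, Valuation.mem_maximalIdeal_iff]

lemma scale (x z : K) (h : x ≠ 0 ∨ z ≠ 0) :
    ∃ s : K, s ≠ 0 ∧ ∃ a b : v.valuationSubring, x = s * a ∧ z = s * b ∧ (a = 1 ∨ b = 1) := by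
  rcases le_total (v x) (v z) with h1 | h1
  · have hz : z ≠ 0 := by
      rintro rfl
      rcases h with h | h
      · rw [map_zero, le_zero_iff, v.zero_iff] at h1; exact h h1
      · exact h rfl
    refine ⟨z, hz, ⟨x / z, ?_⟩, 1, by field_simp, by simp, Or.inr rfl⟩
    rw [Valuation.mem_valuationSubring_iff, map_div₀]
    exact div_le_one_of_le₀ h1 zero_le
  · have hx : x ≠ 0 := by
      rintro rfl
      rcases h with h | h
      · exact h rfl
      · rw [map_zero, le_zero_iff, v.zero_iff] at h1; exact h h1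
    refine ⟨x, hx, 1, ⟨z / x, ?_⟩, by simp, by field_simp, Or.inl rfl⟩
    rw [Valuation.mem_valuationSubring_iff, map_div₀]
    exact div_le_one_of_le₀ h1 zero_le

lemma three (h3 : v 3 < 1) : (3 : IsLocalRing.ResidueField v.valuationSubring) = 0 := by
  have := (res_zero v 3).mpr h3
  rwa [map_ofNat] at this

lemma noC (h3 : v 3 < 1)
    (hq : ∀ r : v.valuationSubring, IsLocalRing.residue _ r ^ 3 = IsLocalRing.residue _ r)
    (x y z : K) (h : x ≠ 0 ∨ z ≠ 0) (e : y ^ 2 = 2 * x ^ 6 + x ^ 2 * z ^ 4 + 2 * z ^ 6) :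
    False := by
  obtain ⟨s, hs, a, b, rfl, rfl, hab⟩ := scale v x z h
  have e1 : (y / s ^ 3) ^ 2 = ((2 * a ^ 6 + a ^ 2 * b ^ 4 + 2 * b ^ 6 : v.valuationSubring) : K) := by
    push_cast
    field_simp
    have : ((2 : v.valuationSubring) : K) = 2 := rfl
    rw [this]
    linear_combination e
  have e2 : y / s ^ 3 ∈ v.valuationSubring := by
    rw [Valuation.mem_valuationSubring_iff, ← pow_le_one_iff (two_ne_zero), ← map_pow, e1]
    exact (2 * a ^ 6 + a ^ 2 * b ^ 4 + 2 * b ^ 6 : v.valuationSubring).2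
  have e3 : (⟨_, e2⟩ : v.valuationSubring) ^ 2 = 2 * a ^ 6 + a ^ 2 * b ^ 4 + 2 * b ^ 6 :=
    Subtype.ext e1
  have e4 := congrArg (IsLocalRing.residue _) e3
  simp only [map_pow, map_add, map_mul, map_ofNat] at e4
  have t := three v h3
  have hc := hq ⟨_, e2⟩
  have ha := hq a
  have hb := hq b
  set c := IsLocalRing.residue _ (⟨_, e2⟩ : v.valuationSubring)
  have e5 : c ^ 2 = -1 := by
    rcases hab with rfl | rfl
    · rw [map_one] at e4
      set B := IsLocalRing.residue _ b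
      linear_combination e4 + (1 + B ^ 2) * t + (B + 2 * (B ^ 3 + B)) * hb
    · rw [map_one] at e4
      set A := IsLocalRing.residue _ a
      linear_combination e4 + (1 + A ^ 2) * t + (2 * (A ^ 3 + A)) * ha
  have e6 : c = 0 := by linear_combination hc - c * e5 + c * t
  rw [e6] at e5
  norm_num at e5

lemma noD (h3 : v 3 = WithZero.exp (-1))
    (hq : ∀ r : v.valuationSubring, IsLocalRing.residue _ r ^ 9 = IsLocalRing.residue _ r)
    (x y z : K) (h : x ≠ 0 ∨ z ≠ 0) (e : y ^ 2 = 3 * ((x ^ 3 - x * z ^ 2) ^ 2 - z ^ 6)) :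
    False := by
  obtain ⟨s, hs, a, b, rfl, rfl, hab⟩ := scale v x z h
  have t := three v (by rw [h3, ← WithZero.exp_zero, WithZero.exp_lt_exp]; norm_num)
  have e1 : (y / s ^ 3) ^ 2 =
      3 * (((a ^ 3 - a * b ^ 2) ^ 2 - b ^ 6 : v.valuationSubring) : K) := by
    push_cast
    field_simp
    linear_combination e
  have e2 : IsLocalRing.residue _ ((a ^ 3 - a * b ^ 2) ^ 2 - b ^ 6 : v.valuationSubring) ≠ 0 := by
    intro h0
    simp only [map_pow, map_sub, map_mul] at h0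
    have ha := hq a
    have hb := hq b
    set A := IsLocalRing.residue _ a with hA
    set B := IsLocalRing.residue _ b with hB
    have hB0 : B ≠ 0 := by
      intro hB0
      rcases hab with rfl | rfl
      · rw [hB0, hA, map_one] at h0; norm_num at h0
      · rw [hB, map_one] at hB0; exact one_ne_zero hB0
    obtain ⟨r, hr⟩ : ∃ r, A = r * B := ⟨A / B, by field_simp⟩
    have h1 : (r ^ 3 - r) ^ 2 = 1 := by
      apply mul_left_cancel₀ (pow_ne_zero 6 hB0)
      rw [hr] at h0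
      linear_combination h0
    have h2 : r ^ 9 = r := by
      apply mul_right_cancel₀ hB0
      rw [hr, mul_pow, hb] at ha
      exact ha
    obtain ⟨E, hE⟩ : ∃ E, r ^ 3 = r + E := ⟨r ^ 3 - r, by ring⟩
    have h4 : E ^ 2 = 1 := by rw [← h1, hE]; ring
    have h5 : (r + E) ^ 3 = r := by rw [← hE, ← pow_mul, h2]
    have h6 : E = 0 := by
      linear_combination -h5 + hE + E * h4 + (E + r ^ 2 * E + r * E ^ 2) * t
    rw [h6] at h4
    norm_num at h4
  have e3 : v (((a ^ 3 - a * b ^ 2) ^ 2 - b ^ 6 : v.valuationSubring) : K) = 1 :=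
    le_antisymm ((a ^ 3 - a * b ^ 2) ^ 2 - b ^ 6 : v.valuationSubring).2
      (not_lt.mp fun h => e2 ((res_zero v _).mpr h))
  have e4 := congrArg v e1
  rw [map_mul, e3, mul_one, h3, map_pow] at e4
  have e5 : v (y / s ^ 3) ≠ 0 := by
    intro h0; rw [h0, zero_pow two_ne_zero] at e4; exact WithZero.exp_ne_zero e4.symm
  rw [← WithZero.exp_log e5, ← WithZero.exp_nsmul, WithZero.exp_inj] at e4
  simp only [nsmul_eq_mul] at e4
  omega

end

lemma pow_res {K : Type} [Field K] [NumberField K] (P : HeightOneSpectrum (𝓞 K)) (q : ℕ)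
    (hq : ∀ a : 𝓞 K, a ^ q - a ∈ P.asIdeal) (r : (P.valuation K).valuationSubring) :
    IsLocalRing.residue _ r ^ q = IsLocalRing.residue _ r := by
  obtain ⟨a, ha⟩ := P.exists_valuation_sub_lt_of_integer (x := (r : K)) r.2 1
  let a' : (P.valuation K).valuationSubring := ⟨algebraMap (𝓞 K) K a, P.valuation_le_one a⟩
  have h1 : IsLocalRing.residue _ a' = IsLocalRing.residue _ r := by
    rw [← sub_eq_zero, ← map_sub, res_zero]; exact ha
  rw [← h1, ← sub_eq_zero, ← map_pow, ← map_sub, res_zero]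
  have := (P.valuation_lt_one_iff_mem (K := K) _).mpr (hq a)
  simpa using this

lemma main (K : Type) [Field K] [NumberField K] (hK : Module.finrank ℚ K ≤ 2)
    (x y z : K) (h : x ≠ 0 ∨ z ≠ 0) (e : y ^ 2 = 2 * x ^ 6 + x ^ 2 * z ^ 4 + 2 * z ^ 6)
    (x' y' z' : K) (h' : x' ≠ 0 ∨ z' ≠ 0)
    (e' : y' ^ 2 = 3 * ((x' ^ 3 - x' * z' ^ 2) ^ 2 - z' ^ 6)) : False := by
  have hN : (Ideal.span {((3 : ℕ) : 𝓞 K)}).absNorm = 3 ^ Module.finrank ℚ K := by
    rw [Ideal.absNorm_span_natCast, RingOfIntegers.rank]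
  have h9 : (Ideal.span {((3 : ℕ) : 𝓞 K)}).absNorm ∣ 3 ^ 2 := hN ▸ pow_dvd_pow 3 hK
  have hne : Ideal.span {((3 : ℕ) : 𝓞 K)} ≠ ⊤ := by
    intro h0
    rw [h0, Ideal.absNorm_top] at hN
    have := Module.finrank_pos (R := ℚ) (M := K)
    have := Nat.one_lt_pow this.ne' (show 1 < 3 by norm_num)
    omega
  obtain ⟨M, hM, hle⟩ := Ideal.exists_le_maximal _ hne
  have h3M : ((3 : ℕ) : 𝓞 K) ∈ M := hle (Ideal.mem_span_singleton_self _)
  have hM0 : M ≠ ⊥ := by
    rintro rfl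
    rw [Ideal.mem_bot] at h3M
    exact (by norm_num : (3 : ℕ) ≠ 0) (Nat.cast_eq_zero.mp h3M)
  let P : HeightOneSpectrum (𝓞 K) := ⟨M, hM.isPrime, hM0⟩
  let _ := Ideal.Quotient.field M
  have hfin : Finite (𝓞 K ⧸ M) := Ideal.finiteQuotientOfFreeOfNeBot M hM0
  let _ := Fintype.ofFinite (𝓞 K ⧸ M)
  have hcard : Fintype.card (𝓞 K ⧸ M) = M.absNorm := by
    rw [Ideal.absNorm_apply, Submodule.cardQuot_apply, Nat.card_eq_fintype_card]
  have hpow : ∀ a : 𝓞 K, ∀ k : ℕ, a ^ (M.absNorm ^ k) - a ∈ M := fun a k => by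
    rw [← Ideal.Quotient.eq, map_pow, ← hcard]
    exact FiniteField.pow_card_pow k _
  have h1 : M.absNorm ≠ 1 := fun h0 => hM.ne_top (Ideal.absNorm_eq_one_iff.mp h0)
  have hd : M.absNorm ∣ 3 ^ 2 := (Ideal.absNorm_dvd_absNorm_of_le hle).trans h9
  have hv : P.valuation K 3 = P.intValuation ((3 : ℕ) : 𝓞 K) := by
    rw [← P.valuation_of_algebraMap (K := K)]; rfl
  obtain ⟨j, hj, hj'⟩ := (Nat.dvd_prime_pow Nat.prime_three).mp hd
  interval_cases j
  · exact h1 hj'
  · refine noC (P.valuation K) ?_ (pow_res P 3 fun a => ?_) x y z h e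
    · rw [hv, P.intValuation_lt_one_iff_mem]; exact h3M
    · simpa [hj'] using hpow a 1
  · refine noD (P.valuation K) ?_ (pow_res P 9 fun a => ?_) x' y' z' h' e'
    · rw [hv]
      have a1 := (P.intValuation_le_pow_iff_mem ((3 : ℕ) : 𝓞 K) 1).mpr (by simpa using h3M)
      have a2 : ¬ P.intValuation ((3 : ℕ) : 𝓞 K) ≤ WithZero.exp (-((2 : ℕ) : ℤ)) := by
        rw [P.intValuation_le_pow_iff_mem]
        intro h2
        have := (Ideal.absNorm_dvd_absNorm_of_le
          ((Ideal.span_singleton_le_iff_mem _).mpr h2)).trans h9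
        rw [map_pow, show P.asIdeal = M from rfl, hj'] at this
        norm_num at this
      have a3 : P.intValuation ((3 : ℕ) : 𝓞 K) ≠ 0 :=
        P.intValuation_ne_zero _ (Nat.cast_ne_zero.mpr (by norm_num))
      rw [← WithZero.exp_log a3] at a1 a2 ⊢
      rw [WithZero.exp_le_exp] at a1 a2
      rw [WithZero.exp_inj]
      omega
    · simpa [hj'] using hpow a 1

theorem result :
    f.natDegree = 6 ∧ g.natDegree = 6 ∧ f.Separable ∧ g.Separable ∧
    ∀ (K : Type) [Field K] [NumberField K], Module.finrank ℚ K ≤ 2 →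
      ¬ (HasPoint f K ∧ HasPoint g K) := by
  refine ⟨by unfold f; compute_degree!, by unfold g; compute_degree!, ?_, ?_, ?_⟩
  · have hd : derivative f = 12 * X ^ 5 + 2 * X := by
      unfold f; simp [← C_ofNat]; simp only [C_ofNat]; ring
    refine ⟨C (1 / 220) * (110 - 36 * X ^ 2 + 12 * X ^ 4),
      C (1 / 220) * (-19 * X + 6 * X ^ 3 - 2 * X ^ 5), ?_⟩
    have h : (C (1 / 220) : ℚ[X]) * 220 = 1 := by rw [← C_ofNat, ← C_mul]; norm_num
    rw [hd, f]
    linear_combination h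
  · have hg : g = 3 * X ^ 6 - 6 * X ^ 4 + 3 * X ^ 2 - 3 := by unfold g; ring
    have hd : derivative g = 18 * X ^ 5 - 24 * X ^ 3 + 6 * X := by
      rw [hg]; simp [← C_ofNat]; simp only [C_ofNat]; ring
    refine ⟨C (1 / 138) * (-46 - 36 * X ^ 2 + 36 * X ^ 4),
      C (1 / 138) * (5 * X + 10 * X ^ 3 - 6 * X ^ 5), ?_⟩
    have h : (C (1 / 138) : ℚ[X]) * 138 = 1 := by rw [← C_ofNat, ← C_mul]; norm_num
    rw [hd, hg]
    linear_combination h
  · rintro K _ _ hK ⟨⟨x, y, z, h, e⟩, ⟨x', y', z', h', e'⟩⟩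
    have hg : g = 3 * X ^ 6 - 6 * X ^ 4 + 3 * X ^ 2 - 3 := by unfold g; ring
    refine main K hK x y z h ?_ x' y' z' h' ?_
    · rw [e]
      simp [Finset.sum_range_succ, f, coeff_X_pow, ← C_ofNat, coeff_C]
      ring
    · rw [e', hg]
      simp [Finset.sum_range_succ, coeff_X_pow, ← C_ofNat, coeff_C]
      ring

end Pool.Agent.Results.MP_a70ae2_nt.Q1
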